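import Pool.Agent.Lib.MP_33ede1_an.Near.Main

/-!
Steklov isospectral, non-congruent planar domains exist (the case `n = 2` of the question), and
they can be taken strictly convex and arbitrarily close to the unit disc.
The plane is `ℂ` with its Euclidean metric; `ℂ ≃ᵢ ℂ` is the group of all its isometries.
-/

open Set Metric Pool.Agent.Lib.MP_33ede1_an

namespace Pool.Agent.Results.MP_33ede1_an.ConvexNearDisc

/-- `Ω` is the image of the unit disc under a map that is holomorphic and injective on the disc of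
radius `R` and differs there from the identity by less than `ε`. -/
def IsNearDisc (R ε : ℝ) (Ω : Set ℂ) : Prop :=
  ∃ F : ℂ → ℂ, DifferentiableOn ℂ F (ball 0 R) ∧ InjOn F (ball 0 R) ∧
    (∀ z ∈ ball (0 : ℂ) R, ‖F z - z‖ < ε) ∧ Ω = F '' ball 0 1

theorem result (R ε : ℝ) (hR : 1 < R) (hε : 0 < ε) :
    ∃ Ω₁ Ω₂ : Set ℂ, IsSmoothDomain Ω₁ ∧ IsSmoothDomain Ω₂ ∧
      IsNearDisc R ε Ω₁ ∧ IsNearDisc R ε Ω₂ ∧
      Convex ℝ Ω₁ ∧ Convex ℝ Ω₂ ∧ StrictConvex ℝ (closure Ω₁) ∧ StrictConvex ℝ (closure Ω₂) ∧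
      (∀ σ : ℝ, steklovMultiplicity Ω₁ σ = steklovMultiplicity Ω₂ σ) ∧
      ∀ φ : ℂ ≃ᵢ ℂ, φ '' Ω₁ ≠ Ω₂ := by
  obtain ⟨F, G, h, hσ, hφ⟩ := Near.exists_pair R ε hε
  obtain ⟨f1, f2, f3, f4, f5, f6⟩ := h F (Or.inl rfl)
  obtain ⟨g1, g2, g3, g4, g5, g6⟩ := h G (Or.inr rfl)
  exact ⟨_, _, f4, g4, ⟨F, f1, f2, f3, rfl⟩, ⟨G, g1, g2, g3, rfl⟩, f5, g5, f6, g6, hσ, hφ⟩

end Pool.Agent.Results.MP_33ede1_an.ConvexNearDisc
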